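import Pool.Agent.H961.T4.Stm
import Pool.Agent.H961.T2.B5

/-!
# Project PN: comparison of the traces in a good environment, all dimensions at least two
-/

set_option autoImplicit false
set_option linter.unusedSectionVars false
set_option linter.unusedVariables false

namespace Pool.Agent.H152.PN

open Finset Equiv Matrix Q292.LC
open Pool.Agent.H961.T2 Pool.Agent.H961.T3 Pool.Agent.H961.T4
open Pool.Agent.Q257.LC

theorem numX (Z C K a N s t Y : ℝ) (hZ : 3 ≤ Z) (hC : C ≤ Z) (hC0 : 0 ≤ C) (ht : 1 ≤ t)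
    (hK : K = t ^ 4) (ha : 0 ≤ a) (hN : 0 ≤ N) (hY : 0 ≤ Y) (hs : s = Y / K) :
    2 * Real.sqrt (C * (Z + 1) * Real.sqrt K * s * a * (s * N)) + s * a ≤
      Z ^ 2 * Y * (t⁻¹ * (a + N / K)) := by
  have ht0 : 0 < t := by linarith
  have hK0 : 0 < K := by rw [hK]; positivity
  have hsq : Real.sqrt K = t ^ 2 := by
    rw [hK, show t ^ 4 = (t ^ 2) ^ 2 by ring, Real.sqrt_sq (by positivity)]
  obtain ⟨X, hX⟩ : ∃ X, X = a + N / K := ⟨_, rfl⟩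
  have hNK : 0 ≤ N / K := div_nonneg hN hK0.le
  have hX0 : 0 ≤ X := by rw [hX]; linarith
  have hs0 : 0 ≤ s := by rw [hs]; exact div_nonneg hY hK0.le
  have haN : a * N ≤ (t ^ 2 * X / 2) ^ 2 := by
    have h1 : a * (N / K) ≤ (X / 2) ^ 2 := by
      rw [hX]
      nlinarith [sq_nonneg (a - N / K)]
    have h2 : a * N = t ^ 4 * (a * (N / K)) := by
      rw [← hK]
      field_simp
    rw [h2]
    calc t ^ 4 * (a * (N / K)) ≤ t ^ 4 * (X / 2) ^ 2 :=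
          mul_le_mul_of_nonneg_left h1 (by positivity)
      _ = (t ^ 2 * X / 2) ^ 2 := by ring
  have hCZ : C * (Z + 1) ≤ 4 * Z ^ 2 := by nlinarith
  have hrad : C * (Z + 1) * Real.sqrt K * s * a * (s * N) ≤ (Z * t ^ 3 * s * X) ^ 2 := by
    rw [hsq]
    calc C * (Z + 1) * t ^ 2 * s * a * (s * N) = (C * (Z + 1)) * (t ^ 2 * s ^ 2) * (a * N) := by
          ring
      _ ≤ (4 * Z ^ 2) * (t ^ 2 * s ^ 2) * (t ^ 2 * X / 2) ^ 2 := by
          refine mul_le_mul (mul_le_mul_of_nonneg_right hCZ (by positivity)) haN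
            (mul_nonneg ha hN) (by positivity)
      _ = (Z * t ^ 3 * s * X) ^ 2 := by ring
  have hroot : Real.sqrt (C * (Z + 1) * Real.sqrt K * s * a * (s * N)) ≤ Z * t ^ 3 * s * X := by
    refine (Real.sqrt_le_sqrt hrad).trans (le_of_eq ?_)
    exact Real.sqrt_sq (by positivity)
  have e1 : t ^ 3 * s = Y * t⁻¹ := by
    rw [hs, hK]
    field_simp
  have h3 : s * a ≤ Y * t⁻¹ * X := by
    rw [← e1]
    have h4 : s * a ≤ (t ^ 3 * s) * a := by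
      have h5 : (1 : ℝ) ≤ t ^ 3 := one_le_pow₀ ht
      have h6 : 0 ≤ s * a := mul_nonneg hs0 ha
      nlinarith
    refine h4.trans (mul_le_mul_of_nonneg_left ?_ (by positivity))
    rw [hX]
    linarith
  have e2 : Z * t ^ 3 * s * X = Z * (Y * t⁻¹ * X) := by rw [← e1]; ring
  have hW : 0 ≤ Y * t⁻¹ * X := by positivity
  rw [← hX]
  calc 2 * Real.sqrt (C * (Z + 1) * Real.sqrt K * s * a * (s * N)) + s * a
      ≤ 2 * (Z * (Y * t⁻¹ * X)) + Y * t⁻¹ * X := by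
        rw [← e2]
        linarith
    _ = (2 * Z + 1) * (Y * t⁻¹ * X) := by ring
    _ ≤ Z ^ 2 * (Y * t⁻¹ * X) := mul_le_mul_of_nonneg_right (by nlinarith) hW
    _ = Z ^ 2 * Y * (t⁻¹ * X) := by ring

/-- the sup bound from the pointwise bound of several laps -/
theorem numY (Z P K K' M : ℝ) (hP : 0 ≤ P) (hK0 : 0 < K) (hK : K ≤ 3 * K') (hM : K ≤ M)
    (hZ : 4 ≤ Z) : P * (1 / ((((0 : ℕ) : ℝ) + 1) * K') + 1 / M) ≤ Z * P / K := by
  have hK' : 0 < K' := by linarith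
  have h1 : 1 / ((((0 : ℕ) : ℝ) + 1) * K') ≤ 3 / K := by
    rw [Nat.cast_zero, zero_add, one_mul, div_le_div_iff₀ hK' hK0]
    linarith
  have h2 : 1 / M ≤ 1 / K := one_div_le_one_div_of_le hK0 hM
  calc P * (1 / ((((0 : ℕ) : ℝ) + 1) * K') + 1 / M) ≤ P * (3 / K + 1 / K) :=
        mul_le_mul_of_nonneg_left (by linarith) hP
    _ = 4 * (P / K) := by ring
    _ ≤ Z * (P / K) := mul_le_mul_of_nonneg_right hZ (div_nonneg hP hK0.le)
    _ = Z * P / K := by ring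

/-- the sup bound for the free kernel -/
theorem numZ (d : ℕ) (hd : 2 ≤ d) (Z Cf K K' M P u : ℝ) (hCf : 0 ≤ Cf) (hK0 : 0 < K)
    (hK : K ≤ 3 * K') (hM : K ≤ M) (hZ : 4 * Cf ≤ Z) (hP : 1 ≤ P) (hZ0 : 0 ≤ Z) (hu : K' ≤ u) :
    Cf * ((1 + u) ^ (-(d / 2 : ℝ)) + 1 / M) ≤ Z * P / K := by
  have hK' : 0 < K' := by linarith
  have hd2 : (2 : ℝ) ≤ d := by exact_mod_cast hd
  have h1 : (1 + u) ^ (-(d / 2 : ℝ)) ≤ 3 / K := by
    calc (1 + u) ^ (-(d / 2 : ℝ)) ≤ (1 + u) ^ (-1 : ℝ) :=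
          Real.rpow_le_rpow_of_exponent_le (by linarith) (by linarith)
      _ = 1 / (1 + u) := by rw [Real.rpow_neg_one, one_div]
      _ ≤ 3 / K := by
          rw [div_le_div_iff₀ (by linarith) hK0]
          linarith
  have h2 : 1 / M ≤ 1 / K := one_div_le_one_div_of_le hK0 hM
  calc Cf * ((1 + u) ^ (-(d / 2 : ℝ)) + 1 / M) ≤ Cf * (3 / K + 1 / K) :=
        mul_le_mul_of_nonneg_left (by linarith) hCf
    _ = (4 * Cf) / K := by ring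
    _ ≤ Z * P / K := by
        refine div_le_div_of_nonneg_right ?_ hK0.le
        nlinarith

theorem ent (hHSB : S_HSB) (hTRH : S_TRH) (hKP : S_KP) : S_ENT := by
  intro d hd
  obtain ⟨C1, m1, hC1, hker⟩ := hKP d hd
  obtain ⟨Cf, hCf, hfre⟩ := fre d (by omega)
  obtain ⟨Ch, hCh, hhsb⟩ := hHSB d (by omega)
  have hd1 : 1 ≤ d := by omega
  refine ⟨C1 + ⌈4 * Cf⌉₊ + ⌈Ch⌉₊ + 4, m1 + 3, by omega, ?_⟩
  intro Z hZ L K lam r ρ κ₀ _ hlam hρ hκ hr hL hK hKL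
  obtain ⟨n1, n3, n4, n5, n6, hL3, n8, n9, n10⟩ :=
    nat_par Z (m1 + 1) ρ r K L (by omega) hr hL hK
  have hp : Z ^ m1 ≤ Z ^ (m1 + 1) := Nat.pow_le_pow_right (by omega) (by omega)
  obtain ⟨q1, hq1⟩ := hker Z (by omega) L (K / 2) lam r ρ κ₀ hlam hρ hκ (by omega) (by omega)
    (by omega)
  obtain ⟨q2, hq2⟩ := hker Z (by omega) L (K - K / 2) lam r ρ κ₀ hlam hρ hκ (by omega) (by omega)
    (by omega)
  obtain ⟨q3, hq3⟩ := hfre L hL3 K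
  obtain ⟨q4, hq4⟩ := hhsb L hL3 (K / 2)
  obtain ⟨q5, hq5⟩ := hhsb L hL3 (K - K / 2)
  refine ⟨q1 + q2 + q3 + q4 + q5 + 4 * d + 2, ?_⟩
  intro q hq σ hσ δ h1 h2 ω A hEv j
  have hqr : (2 : ℝ) ≤ q := by
    have : 2 ≤ q := by omega
    exact_mod_cast this
  have hδ : 0 < δ := by
    by_contra h
    push Not at h
    nlinarith
  have hδ1 : δ ≤ 1 := by nlinarith
  have hL0 : (0 : ℝ) < L := by
    have : 0 < L := by omega
    exact_mod_cast this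
  have hK0 : (0 : ℝ) < K := by exact_mod_cast n10
  have hZ4 : (4 : ℝ) ≤ Z := by
    have : 4 ≤ Z := by omega
    exact_mod_cast this
  have hKLr : (K : ℝ) ≤ (L : ℝ) ^ d := by exact_mod_cast hKL
  -- the two halves
  obtain ⟨K1, hK1⟩ : ∃ K1, K1 = K / 2 := ⟨_, rfl⟩
  obtain ⟨K2, hK2⟩ : ∃ K2, K2 = K - K / 2 := ⟨_, rfl⟩
  have hKK : K = K1 + K2 := by omega
  obtain ⟨T1, hT1⟩ : ∃ T1, T1 = TT (ed ∘ σ) ω A δ (K1 * (q * ms d L)) := ⟨_, rfl⟩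
  obtain ⟨ω1, hω1⟩ : ∃ ω1 : ℕ → Bool, ω1 = sh (K1 * (q * ms d L)) ω := ⟨_, rfl⟩
  obtain ⟨A1, hA1⟩ : ∃ A1, A1 = A.image (gp (ed ∘ σ) ω (K1 * (q * ms d L))) := ⟨_, rfl⟩
  obtain ⟨T2, hT2⟩ : ∃ T2, T2 = TT (ed ∘ σ) ω1 A1 δ (K2 * (q * ms d L)) := ⟨_, rfl⟩
  obtain ⟨P1, hP1⟩ : ∃ P1, P1 = PP (ed ∘ σ) δ (K1 * (q * ms d L)) := ⟨_, rfl⟩
  obtain ⟨P2, hP2⟩ : ∃ P2, P2 = PP (ed ∘ σ) δ (K2 * (q * ms d L)) := ⟨_, rfl⟩
  have hTT : TT (ed ∘ σ) ω A δ (K * (q * ms d L)) = T1 * T2 := by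
    rw [hT1, hT2, hω1, hA1]
    conv_lhs => rw [hKK]
    exact TT_units Pool.Agent.Q68.LC.bas2 hσ ω A hδ.le hδ1 q K1 K2
  have hPP : PP (ed ∘ σ) δ (K * (q * ms d L)) = P1 * P2 := by
    rw [hP1, hP2]
    conv_lhs => rw [hKK]
    exact PP_units hσ hδ.le hδ1 q K1 K2
  have hSUB := Pool.Agent.Q277.LC.sub
  have hE2 : Ev σ q K2 lam r ρ κ₀ ω1 A1 := by
    rw [hω1, hA1]
    exact (hSUB d L hL3 σ hσ q K lam r ρ κ₀ ω A hEv K1 K2 (by omega)).2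
  have hE1 : Ev σ q K1 lam r ρ κ₀ ω A := by
    obtain ⟨w1, w2, w3⟩ := hEv
    refine ⟨fun i hi v => w1 i (by omega) v, fun i hi a ha => w2 i (by omega) a ha, ?_⟩
    intro a ha b hb hab
    refine le_trans (card_le_card ?_) (w3 a ha b hb hab)
    refine filter_subset_filter _ (range_subset_range.2 ?_)
    have : K1 * q ≤ K * q := Nat.mul_le_mul_right _ (by omega)
    omega
  have hbs : ∀ (ω : ℕ → Bool) (A : Finset (Fin d → ZMod L)) (n : ℕ),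
      BS (TT (ed ∘ σ) ω A δ n) := by
    intro ω A n
    have h := Pool.Agent.Q68.LC.bas2 _ (ed ∘ σ) ω A δ hδ.le hδ1
    exact ⟨h.1 n, fun x => (h.2.1 n x).le, fun y => (h.2.2.1 n y).le⟩
  have bT1 : BS T1 := by rw [hT1]; exact hbs _ _ _
  have bT2 : BS T2 := by rw [hT2]; exact hbs _ _ _
  have bP1 : BS P1 := by rw [hP1]; exact hbs _ _ _
  have bP2 : BS P2 := by rw [hP2]; exact hbs _ _ _
  -- sup bounds
  obtain ⟨Y, hY⟩ : ∃ Y : ℝ, Y = Z * (Z : ℝ) ^ m1 := ⟨_, rfl⟩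
  obtain ⟨s, hs⟩ : ∃ s : ℝ, s = Y / K := ⟨_, rfl⟩
  have hPm : (1 : ℝ) ≤ (Z : ℝ) ^ m1 := one_le_pow₀ (by linarith)
  have hY0 : 0 ≤ Y := by rw [hY]; positivity
  have hs0 : 0 ≤ s := by rw [hs]; exact div_nonneg hY0 hK0.le
  have hK1r : (K : ℝ) ≤ 3 * K1 := by rw [hK1]; exact_mod_cast n8
  have hK2r : (K : ℝ) ≤ 3 * K2 := by rw [hK2]; exact_mod_cast n9
  have hK1p : (0 : ℝ) < K1 := by linarith
  have hK2p : (0 : ℝ) < K2 := by linarith
  have hCfZ : 4 * Cf ≤ Z := by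
    have h3 : 4 * Cf ≤ (⌈4 * Cf⌉₊ : ℝ) := Nat.le_ceil _
    have h4 : (⌈4 * Cf⌉₊ : ℝ) ≤ Z := by
      have : ⌈4 * Cf⌉₊ ≤ Z := by omega
      exact_mod_cast this
    linarith
  have hChZ : Ch ≤ Z := by
    have h3 : Ch ≤ (⌈Ch⌉₊ : ℝ) := Nat.le_ceil _
    have h4 : (⌈Ch⌉₊ : ℝ) ≤ Z := by
      have : ⌈Ch⌉₊ ≤ Z := by omega
      exact_mod_cast this
    linarith
  have hsT1 : ∀ x, x ∉ A → ∀ y, T1 x y ≤ s := by
    intro x hx y
    have h := hq1 q (by omega) σ hσ δ h1 h2 ω A (by rw [← hK1]; exact hE1) ∅ x y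
      (disjoint_empty_left _) hx 0
    rw [pow_zero, Matrix.mul_one, ← hK1, ← hT1] at h
    refine h.trans ?_
    rw [hs, hY]
    exact numY Z _ K K1 _ (by positivity) hK0 hK1r hKLr hZ4
  have hsT2 : ∀ x, x ∉ A1 → ∀ y, T2 x y ≤ s := by
    intro x hx y
    have h := hq2 q (by omega) σ hσ δ h1 h2 ω1 A1 (by rw [← hK2]; exact hE2) ∅ x y
      (disjoint_empty_left _) hx 0
    rw [pow_zero, Matrix.mul_one, ← hK2, ← hT2] at h
    refine h.trans ?_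
    rw [hs, hY]
    exact numY Z _ K K2 _ (by positivity) hK0 hK2r hKLr hZ4
  have hsP1 : ∀ x y, P1 x y ≤ s := by
    intro x y
    have hK1K : K1 * q ≤ K * q := Nat.mul_le_mul_right _ (by omega)
    have h := (hq3 q (by omega) σ hσ δ h1 h2).1 (K1 * q) hK1K x y
    rw [Nat.mul_assoc, ← hP1] at h
    refine h.trans ?_
    rw [hs, hY]
    refine numZ d hd Z Cf K K1 _ _ _ (by linarith) hK0 hK1r hKLr hCfZ hPm (by linarith) ?_
    push_cast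
    nlinarith
  have hsP2 : ∀ x y, P2 x y ≤ s := by
    intro x y
    have hK2K : K2 * q ≤ K * q := Nat.mul_le_mul_right _ (by omega)
    have h := (hq3 q (by omega) σ hσ δ h1 h2).1 (K2 * q) hK2K x y
    rw [Nat.mul_assoc, ← hP2] at h
    refine h.trans ?_
    rw [hs, hY]
    refine numZ d hd Z Cf K K2 _ _ _ (by linarith) hK0 hK2r hKLr hCfZ hPm (by linarith) ?_
    push_cast
    nlinarith
  -- the Hilbert-Schmidt norms
  obtain ⟨h, hh⟩ : ∃ h : ℝ, h = Ch * (Z + 1) * Real.sqrt K * s * A.card := ⟨_, rfl⟩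
  have hρr : (ρ : ℝ) ≤ Z := by exact_mod_cast hρ
  have hCh0 : 0 ≤ Ch := by linarith
  have hZ0 : (0 : ℝ) ≤ (Z : ℝ) + 1 := by linarith
  have hh0 : 0 ≤ h := by
    rw [hh]
    exact mul_nonneg (mul_nonneg (mul_nonneg (mul_nonneg hCh0 hZ0) (Real.sqrt_nonneg _)) hs0)
      (Nat.cast_nonneg _)
  have hK1K : (K1 : ℝ) ≤ K := by
    have : K1 ≤ K := by omega
    exact_mod_cast this
  have hK2K : (K2 : ℝ) ≤ K := by
    have : K2 ≤ K := by omega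
    exact_mod_cast this
  have hA1c : (A1.card : ℝ) ≤ A.card := by
    rw [hA1]
    exact_mod_cast card_image_le
  have hcmp : ∀ (K' a : ℝ), K' ≤ K → 0 ≤ a → a ≤ A.card →
      Ch * (ρ + 1) * Real.sqrt K' * s * a ≤ h := by
    intro K' a hK' ha0 ha
    rw [hh]
    have e1 : Real.sqrt K' ≤ Real.sqrt K := Real.sqrt_le_sqrt hK'
    have e2 : (ρ : ℝ) + 1 ≤ Z + 1 := by linarith
    have e0 : (0 : ℝ) ≤ (ρ : ℝ) + 1 := by linarith [(Nat.cast_nonneg ρ : (0 : ℝ) ≤ (ρ : ℝ))]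
    refine mul_le_mul (mul_le_mul_of_nonneg_right (mul_le_mul (mul_le_mul_of_nonneg_left e2 hCh0)
      e1 (Real.sqrt_nonneg _) (mul_nonneg hCh0 hZ0)) hs0) ha ha0
      (mul_nonneg (mul_nonneg (mul_nonneg hCh0 hZ0) (Real.sqrt_nonneg _)) hs0)
  have hh1 : ∑ x ∈ univ \ A, ∑ y, (T1 x y - P1 x y) ^ 2 ≤ h := by
    have h3 := hq4 q (by omega) σ hσ δ h1 h2 ω A ρ s (by
      intro i hi a ha
      exact hE1.2.1 i (by omega) a ha) hs0 (by
        rw [← hK1, ← hT1]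
        exact hsT1) (by
        rw [← hK1, ← hP1]
        exact hsP1)
    rw [← hK1, ← hT1, ← hP1] at h3
    exact h3.trans (hcmp K1 _ hK1K (Nat.cast_nonneg _) le_rfl)
  have hh2 : ∑ x ∈ univ \ A1, ∑ y, (T2 x y - P2 x y) ^ 2 ≤ h := by
    have h3 := hq5 q (by omega) σ hσ δ h1 h2 ω1 A1 ρ s (by
      intro i hi a ha
      exact hE2.2.1 i (by omega) a ha) hs0 (by
        rw [← hK2, ← hT2]
        exact hsT2) (by
        rw [← hK2, ← hP2]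
        exact hsP2)
    rw [← hK2, ← hT2, ← hP2] at h3
    exact h3.trans (hcmp K2 _ hK2K (Nat.cast_nonneg _) hA1c)
  -- the trace
  have hzero : ∀ x ∈ univ \ A, ∀ y, y ∉ univ \ A1 → T1 x y = 0 := by
    intro x hx y hy
    have hx' : x ∉ A := (mem_sdiff.1 hx).2
    have hy' : y ∈ A1 := by
      by_contra hc
      exact hy (mem_sdiff.2 ⟨mem_univ _, hc⟩)
    rw [hT1]
    rw [hA1] at hy'
    exact (Pool.Agent.Q68.LC.bas2 _ (ed ∘ σ) ω A δ hδ.le hδ1).2.2.2.2.1 _ x hx' y hy'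
  have key := hTRH (Fin d → ZMod L) (univ \ A) (univ \ A1) T1 T2 P1 P2 s h bT1 bT2 bP1 bP2 hzero
    hs0 hh0 (fun x hx y => hsT1 x (mem_sdiff.1 hx).2 y) hsP1 hsP2 hh1 hh2 j
  rw [tr_dg, hTT, hPP]
  refine key.trans ?_
  refine mul_le_mul_of_nonneg_left ?_ (by positivity)
  have hcV : (Fintype.card (Fin d → ZMod L) : ℝ) = (L : ℝ) ^ d := by
    rw [Fintype.card_fun, ZMod.card, Fintype.card_fin]
    push_cast
    rfl
  have hcA : ((univ \ (univ \ A)).card : ℝ) = A.card := by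
    rw [sdiff_sdiff_right_self]
    simp
  rw [hcV, hcA, hh]
  obtain ⟨t, ht⟩ : ∃ t : ℝ, t = (K : ℝ) ^ (1 / 4 : ℝ) := ⟨_, rfl⟩
  have hK1' : (1 : ℝ) ≤ K := by exact_mod_cast n10
  have ht1 : 1 ≤ t := by
    rw [ht]
    exact Real.one_le_rpow hK1' (by norm_num)
  have ht4 : (K : ℝ) = t ^ 4 := by
    rw [ht, ← Real.rpow_natCast, ← Real.rpow_mul hK0.le]
    norm_num
  have htn : (K : ℝ) ^ (-(1 / 4) : ℝ) = t⁻¹ := by
    rw [Real.rpow_neg hK0.le, ← ht]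
  have hfin := numX Z Ch K A.card ((L : ℝ) ^ d) s t Y (by linarith) hChZ hCh0 ht1 ht4
    (Nat.cast_nonneg _) (by positivity) hY0 hs
  refine hfin.trans (le_of_eq ?_)
  rw [htn, hY]
  ring

end Pool.Agent.H152.PN
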